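import Pool.Agent.Helper58.AM.Sheet

/-! Row CNT of sheet AM: the counting step. -/

set_option autoImplicit false

open Finset

namespace Pool.Agent.Helper58.AM

theorem h85_dc {V : Type} [Fintype V] [DecidableEq V] (Z : V → Finset V) :
    ∑ v, (univ.filter (fun y => v ∈ Z y)).card = ∑ y, (Z y).card := by
  simp_rw [Finset.card_filter]
  rw [Finset.sum_comm]
  refine Finset.sum_congr rfl fun y _ => ?_
  rw [← Finset.card_filter]
  congr 1
  ext v
  simp

theorem h85_pig {M : Type} [AddCommGroup M] [Fintype M] (S1 S2 : Finset M) (x : M)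
    (h : Fintype.card M < S1.card + S2.card) : ∃ s1 ∈ S1, ∃ s2 ∈ S2, x + s1 + s2 = 0 := by
  classical
  have hinj : (S2.image (fun s => - x - s)).card = S2.card := by
    apply Finset.card_image_of_injective
    intro s t hst
    simpa using hst
  have h1 : ¬ Disjoint S1 (S2.image (fun s => - x - s)) := by
    intro hd
    have h2 := Finset.card_union_of_disjoint hd
    have h3 : (S1 ∪ S2.image (fun s => - x - s)).card ≤ Fintype.card M := Finset.card_le_univ _
    omega
  rw [Finset.not_disjoint_iff] at h1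
  obtain ⟨s, hs1, hs2⟩ := h1
  obtain ⟨t, ht, rfl⟩ := Finset.mem_image.1 hs2
  exact ⟨_, hs1, t, ht, by abel⟩

theorem st_CNT (h1 : ST_TYP) (h2 : ST_POP) : ST_CNT := by
  classical
  intro M V _ _ _ _ _ N c a b hab hba hN hc hdeg
  have hT := fun v : V => h1 M V (c v) (N v) a b hab hba (by have := hdeg v; omega)
  choose Z hZN hZc hZ using hT
  -- type I
  set I : V → Prop := fun v => ∀ y ∈ N v \ Z v, ∃ L ⊆ (N v).erase y, L.card = a ∧
    ∑ z ∈ L, c v z + (b + 1) • c v y = 0 with hI
  set E : V → Finset V := fun y => (N y).filter (fun v => I v ∧ y ∉ Z v) with hE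
  by_cases hcase1 : ∃ y, Fintype.card M + b ≤ (E y).card
  · obtain ⟨y, hy⟩ := hcase1
    obtain ⟨v, hv, B, hB, hBc, hBs⟩ := h2 M V (c y) b (E y) hy
    obtain ⟨hvN, hvI, hyZ⟩ := Finset.mem_filter.1 hv
    have hyN : y ∈ N v := (hN v y).2 hvN
    obtain ⟨L, hL, hLc, hLs⟩ := hvI y (Finset.mem_sdiff.2 ⟨hyN, hyZ⟩)
    refine ⟨v, y, hyN, L, hL, B, ?_, hLc, hBc, ?_⟩
    · intro w hw
      have := hB hw
      rw [Finset.mem_erase] at this ⊢
      exact ⟨this.1, (Finset.mem_filter.1 this.2).1⟩
    · rw [hBs, hc y v, ← hLs, succ_nsmul]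
      abel
  push Not at hcase1
  by_cases hcase2 : ∃ v y, y ∈ N v ∧ ¬ I v ∧ ¬ I y ∧ y ∉ Z v ∧ v ∉ Z y
  · obtain ⟨v, y, hyN, hIv, hIy, hyZ, hvZ⟩ := hcase2
    obtain ⟨S1, hS1c, hS1⟩ := ((hZ v).resolve_left hIv).1
    obtain ⟨S2, hS2c, hS2⟩ := ((hZ y).resolve_left hIy).2
    obtain ⟨s1, hs1, s2, hs2, hs⟩ := h85_pig S1 S2 (c v y) (by omega)
    obtain ⟨L1, hL1, hL1c, hL1s⟩ := hS1 s1 hs1
    obtain ⟨L2, hL2, hL2c, hL2s⟩ := hS2 s2 hs2
    refine ⟨v, y, hyN, L1, ?_, L2, ?_, hL1c, hL2c, ?_⟩
    · intro w hw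
      rw [Finset.mem_erase]
      exact ⟨fun h => hyZ (h ▸ hL1 hw), hZN v (hL1 hw)⟩
    · intro w hw
      rw [Finset.mem_erase]
      exact ⟨fun h => hvZ (h ▸ hL2 hw), hZN y (hL2 hw)⟩
    · rw [hL1s, hL2s]
      exact hs
  push Not at hcase2
  exfalso
  have hcov : ∀ v, (N v).card ≤ (Z v).card + (univ.filter (fun y => v ∈ Z y)).card +
      ((univ.filter (fun y => v ∈ E y)).card + (E v).card) := by
    intro v
    have hsub : N v ⊆ (Z v ∪ univ.filter (fun y => v ∈ Z y)) ∪
        (univ.filter (fun y => v ∈ E y) ∪ E v) := by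
      intro y hy
      simp only [Finset.mem_union, Finset.mem_filter, Finset.mem_univ, true_and]
      by_cases h3 : y ∈ Z v
      · exact Or.inl (Or.inl h3)
      by_cases h4 : v ∈ Z y
      · exact Or.inl (Or.inr h4)
      by_cases h5 : I v
      · exact Or.inr (Or.inl (Finset.mem_filter.2 ⟨(hN y v).2 hy, h5, h3⟩))
      by_cases h6 : I y
      · exact Or.inr (Or.inr (Finset.mem_filter.2 ⟨hy, h6, h4⟩))
      · exact absurd (hcase2 v y hy h5 h6 h3) h4
    refine le_trans (Finset.card_le_card hsub) (le_trans (Finset.card_union_le _ _) ?_)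
    exact add_le_add (Finset.card_union_le _ _) (Finset.card_union_le _ _)
  have hsum : ∑ v : V, (N v).card ≤ ∑ v : V, (Z v).card + ∑ v : V, (Z v).card +
      (∑ v : V, (E v).card + ∑ v : V, (E v).card) := by
    calc ∑ v : V, (N v).card ≤ ∑ v : V, ((Z v).card + (univ.filter (fun y => v ∈ Z y)).card +
          ((univ.filter (fun y => v ∈ E y)).card + (E v).card)) :=
          Finset.sum_le_sum fun v _ => hcov v
      _ = _ := by
          rw [Finset.sum_add_distrib, Finset.sum_add_distrib, Finset.sum_add_distrib,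
            h85_dc Z, h85_dc E]
  have hlow : Fintype.card V * (7 * Fintype.card M) ≤ ∑ v : V, (N v).card := by
    have := Finset.card_nsmul_le_sum (univ : Finset V) (fun v => (N v).card)
      (7 * Fintype.card M) (fun v _ => hdeg v)
    simpa using this
  have hZs : ∑ v : V, (Z v).card ≤ Fintype.card V * (2 * Fintype.card M - 2) := by
    have := Finset.sum_le_card_nsmul (univ : Finset V) (fun v => (Z v).card)
      (2 * Fintype.card M - 2) (fun v _ => by have := hZc v; omega)
    simpa using this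
  have hEs : ∑ v : V, (E v).card ≤ Fintype.card V * (Fintype.card M + b - 1) := by
    have := Finset.sum_le_card_nsmul (univ : Finset V) (fun v => (E v).card)
      (Fintype.card M + b - 1) (fun v _ => by have := hcase1 v; omega)
    simpa using this
  have hn : 0 < Fintype.card V := Fintype.card_pos
  have hfin : Fintype.card V * (7 * Fintype.card M) ≤
      Fintype.card V * (2 * (2 * Fintype.card M - 2) + 2 * (Fintype.card M + b - 1)) := by
    have e : Fintype.card V * (2 * (2 * Fintype.card M - 2) + 2 * (Fintype.card M + b - 1)) =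
      Fintype.card V * (2 * Fintype.card M - 2) + Fintype.card V * (2 * Fintype.card M - 2) +
      (Fintype.card V * (Fintype.card M + b - 1) + Fintype.card V * (Fintype.card M + b - 1)) := by
      ring
    rw [e]
    omega
  have hfin2 := Nat.le_of_mul_le_mul_left hfin hn
  omega

end Pool.Agent.Helper58.AM
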